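import Mathlib
import Pool.Agent.N852.Div

/-!
Tuples of integers of `[N, 2N]` whose product is square-full.
-/

set_option autoImplicit false

namespace Pool.Agent.K6.H91.RM

open Finset

/-- every prime which divides `M` divides it twice -/
def Full (M : ℕ) : Prop := ∀ p : ℕ, p.Prime → p ∣ M → p ^ 2 ∣ M

theorem Full.exists_sq_mul {M : ℕ} (hM : M ≠ 0) (h : Full M) :
    ∃ a b : ℕ, 0 < a ∧ b ∣ a ∧ a ^ 2 * b = M := by
  obtain ⟨b, a, hb, ha, hab, hsq⟩ := Nat.sq_mul_squarefree_of_pos (Nat.pos_of_ne_zero hM)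
  refine ⟨a, b, ha, ?_, hab⟩
  rw [← Nat.prod_primeFactors_of_squarefree hsq]
  apply Finset.prod_primes_dvd
  · intro p hp
    exact (Nat.prime_of_mem_primeFactors hp).prime
  · intro p hp
    have hpp := Nat.prime_of_mem_primeFactors hp
    have hpb := Nat.dvd_of_mem_primeFactors hp
    by_contra hpa
    have h1 : p ^ 2 ∣ a ^ 2 * b := by
      rw [hab]
      apply h p hpp
      rw [← hab]
      exact hpb.mul_left _
    have hcop : Nat.Coprime (p ^ 2) (a ^ 2) :=
      Nat.Coprime.pow 2 2 ((Nat.Prime.coprime_iff_not_dvd hpp).2 hpa)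
    have h2 : p ^ 2 ∣ b := hcop.dvd_of_dvd_mul_left h1
    have h3 := hsq p (by rw [← sq]; exact h2)
    exact hpp.one_lt.ne' (Nat.isUnit_iff.1 h3)

/-- the index set of the `2k` factors -/
abbrev Idx (k : ℕ) : Type := Fin k ⊕ Fin k

/-- all the tuples -/
def tup (k N : ℕ) : Finset (Idx k → ℕ) := Fintype.piFinset (fun _ => Icc N (2 * N))

theorem card_full (k : ℕ) (hk : 1 ≤ k) (δ : ℝ) (hδ : 0 < δ) :
    ∃ C : ℝ, 0 < C ∧ ∀ N : ℕ, 1 ≤ N → ∀ P : (Idx k → ℕ) → Prop, ∀ [DecidablePred P],
      (∀ n, P n → Full (∏ i, n i)) →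
      (((tup k N).filter P).card : ℝ) ≤ C * (N : ℝ) ^ ((k : ℝ) + δ) := by
  classical
  have hkr : (1 : ℝ) ≤ k := by exact_mod_cast hk
  set δ' : ℝ := δ / (3 * k * (2 * k + 1)) with hδ'
  have hδ'0 : 0 < δ' := by positivity
  obtain ⟨C0, hC0, hdiv⟩ := Pool.Agent.N852.divisor_bound δ' hδ'0
  refine ⟨C0 ^ (2 * k + 1) * 2 ^ ((k : ℝ) + δ), by positivity, ?_⟩
  intro N hN P _ hP
  have hNr : (1 : ℝ) ≤ N := by exact_mod_cast hN
  set X : ℕ := (2 * N) ^ k with hX
  have hX1 : 1 ≤ X := Nat.one_le_pow _ _ (by omega)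
  set D : ℝ := C0 * ((X : ℝ) ^ 3) ^ δ' with hD
  have hXr : (1 : ℝ) ≤ X := by exact_mod_cast hX1
  have hD0 : 0 ≤ D := by positivity
  have hDle : ∀ m : ℕ, m ≠ 0 → m ≤ X ^ 3 → ((m.divisors.card : ℕ) : ℝ) ≤ D := by
    intro m hm0 hm
    refine (hdiv m hm0).trans ?_
    apply mul_le_mul_of_nonneg_left _ hC0.le
    apply Real.rpow_le_rpow (by positivity) _ hδ'0.le
    exact_mod_cast hm
  -- the covering
  have hsub : (tup k N).filter P ⊆ (Icc 1 X).biUnion (fun a => a.divisors.biUnion (fun b =>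
      Fintype.piFinset (fun _ : Idx k => (a ^ 2 * b).divisors))) := by
    intro n hn
    rw [mem_filter, tup, Fintype.mem_piFinset] at hn
    obtain ⟨hn1, hn2⟩ := hn
    have hM0 : ∏ i, n i ≠ 0 := by
      apply Finset.prod_ne_zero_iff.2
      intro i _
      have := mem_Icc.1 (hn1 i)
      omega
    obtain ⟨a, b, ha, hba, hab⟩ := (hP n hn2).exists_sq_mul hM0
    have hb0 : b ≠ 0 := by
      rintro rfl
      exact hM0 (by rw [← hab]; simp)
    have haX : a ≤ X := by
      have h1 : ∏ i, n i ≤ ∏ _i : Idx k, (2 * N) := by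
        apply Finset.prod_le_prod'
        intro i _
        exact (mem_Icc.1 (hn1 i)).2
      have h2 : ∏ _i : Idx k, (2 * N) = X ^ 2 := by
        rw [prod_const, card_univ, Fintype.card_sum, Fintype.card_fin, hX, ← pow_mul]
        congr 1
        ring
      have h3 : a ^ 2 ≤ X ^ 2 := by
        calc a ^ 2 ≤ a ^ 2 * b := Nat.le_mul_of_pos_right _ (Nat.pos_of_ne_zero hb0)
          _ = ∏ i, n i := hab
          _ ≤ X ^ 2 := h1.trans h2.le
      exact (Nat.pow_le_pow_iff_left (by norm_num)).1 h3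
    rw [mem_biUnion]
    refine ⟨a, mem_Icc.2 ⟨ha, haX⟩, ?_⟩
    rw [mem_biUnion]
    refine ⟨b, Nat.mem_divisors.2 ⟨hba, ha.ne'⟩, ?_⟩
    rw [Fintype.mem_piFinset]
    intro i
    rw [Nat.mem_divisors, hab]
    exact ⟨Finset.dvd_prod_of_mem n (mem_univ i), hM0⟩
  have h1 : (((tup k N).filter P).card : ℝ) ≤ X * D ^ (2 * k + 1) := by
    calc (((tup k N).filter P).card : ℝ)
        ≤ (((Icc 1 X).biUnion (fun a => a.divisors.biUnion (fun b =>
            Fintype.piFinset (fun _ : Idx k => (a ^ 2 * b).divisors)))).card : ℝ) := by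
          exact_mod_cast card_le_card hsub
      _ ≤ ∑ a ∈ Icc 1 X, ∑ b ∈ a.divisors,
            ((Fintype.piFinset (fun _ : Idx k => (a ^ 2 * b).divisors)).card : ℝ) := by
          have h2 : ((Icc 1 X).biUnion (fun a => a.divisors.biUnion (fun b =>
            Fintype.piFinset (fun _ : Idx k => (a ^ 2 * b).divisors)))).card ≤
            ∑ a ∈ Icc 1 X, ∑ b ∈ a.divisors,
              (Fintype.piFinset (fun _ : Idx k => (a ^ 2 * b).divisors)).card :=
            card_biUnion_le.trans (sum_le_sum fun a _ => card_biUnion_le)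
          exact_mod_cast h2
      _ ≤ ∑ a ∈ Icc 1 X, ∑ b ∈ a.divisors, D ^ (2 * k) := by
          apply sum_le_sum
          intro a ha
          apply sum_le_sum
          intro b hb
          rw [Fintype.card_piFinset, prod_const, card_univ, Fintype.card_sum, Fintype.card_fin]
          have ha' := mem_Icc.1 ha
          have hb' := Nat.mem_divisors.1 hb
          have hb1 : b ≤ a := Nat.le_of_dvd (by omega) hb'.1
          have hb0 : b ≠ 0 := by
            rintro rfl
            exact hb'.2 (Nat.eq_zero_of_zero_dvd hb'.1)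
          have h3 := hDle (a ^ 2 * b) (by
            apply mul_ne_zero (pow_ne_zero _ (by omega)) hb0) (by
              calc a ^ 2 * b ≤ X ^ 2 * X := Nat.mul_le_mul (Nat.pow_le_pow_left ha'.2 2) (hb1.trans ha'.2)
                _ = X ^ 3 := by ring)
          push_cast
          rw [show k + k = 2 * k by ring]
          exact pow_le_pow_left₀ (by positivity) h3 _
      _ ≤ ∑ a ∈ Icc 1 X, D * D ^ (2 * k) := by
          apply sum_le_sum
          intro a ha
          have ha' := mem_Icc.1 ha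
          rw [sum_const, nsmul_eq_mul]
          apply mul_le_mul_of_nonneg_right _ (by positivity)
          apply hDle a (by omega)
          calc a ≤ X := ha'.2
            _ ≤ X ^ 3 := Nat.le_self_pow (by norm_num) _
      _ = X * D ^ (2 * k + 1) := by
          rw [sum_const, nsmul_eq_mul, Nat.card_Icc]
          simp only [Nat.add_sub_cancel]
          ring
  refine h1.trans (le_of_eq ?_)
  have hDpow : D ^ (2 * k + 1) = C0 ^ (2 * k + 1) * ((2 * N : ℝ)) ^ δ := by
    rw [hD, mul_pow]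
    congr 1
    have hX' : (X : ℝ) = (2 * N : ℝ) ^ (k : ℝ) := by
      rw [hX]
      push_cast
      rw [Real.rpow_natCast]
    rw [hX', ← Real.rpow_natCast, ← Real.rpow_natCast, ← Real.rpow_mul (by positivity),
      ← Real.rpow_mul (by positivity), ← Real.rpow_mul (by positivity)]
    congr 1
    rw [hδ']
    push_cast
    field_simp
  rw [hDpow, Real.rpow_add (by positivity), Real.rpow_add (by positivity),
    Real.mul_rpow (by norm_num) (by positivity)]
  have hX'' : (X : ℝ) = 2 ^ (k : ℝ) * (N : ℝ) ^ (k : ℝ) := by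
    rw [hX]
    push_cast
    rw [Real.rpow_natCast, Real.rpow_natCast, mul_pow]
  rw [hX'']
  ring

end Pool.Agent.K6.H91.RM
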