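import Mathlib
import Pool.Agent.K6.H91.RM.Count

/-!
Random multiplicative functions: the expectation of a product of values vanishes unless the product
of the arguments is square-full.
-/

set_option autoImplicit false

namespace Pool.Agent.K6.H91.RM

open Finset MeasureTheory ProbabilityTheory

/-- the value at `n` of the multiplicative function with the value `y p j` at `p ^ j` -/
noncomputable def mf (y : ℕ → ℕ → ℂ) (n : ℕ) : ℂ := ∏ p ∈ n.primeFactors, y p (n.factorization p)

theorem norm_mf_le {y : ℕ → ℕ → ℂ} (hy : ∀ p j, ‖y p j‖ ≤ 1) (n : ℕ) : ‖mf y n‖ ≤ 1 := by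
  rw [mf, norm_prod]
  exact Finset.prod_le_one (fun _ _ => norm_nonneg _) (fun p _ => hy p _)

/-- the identity or the conjugation -/
noncomputable def cj (b : Bool) : ℂ →+* ℂ := if b then starRingEnd ℂ else RingHom.id ℂ

theorem norm_cj (b : Bool) (z : ℂ) : ‖cj b z‖ = ‖z‖ := by
  cases b <;> simp [cj]

theorem continuous_cj (b : Bool) : Continuous (cj b) := by
  cases b
  · simp only [cj]
    exact continuous_id
  · simp only [cj, if_true]
    exact Complex.continuous_conj

theorem measurable_cj (b : Bool) : Measurable (cj b) := (continuous_cj b).measurable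

variable {Ω : Type*} [MeasurableSpace Ω] {μ : Measure Ω}

theorem integral_cj (b : Bool) (g : Ω → ℂ) (h : ∫ ω, g ω ∂μ = 0) : ∫ ω, cj b (g ω) ∂μ = 0 := by
  cases b
  · simpa [cj] using h
  · simp only [cj, if_true]
    rw [integral_conj, h, map_zero]

theorem measurable_mf {Y : ℕ → Ω → ℕ → ℂ} (hm : ∀ p, Measurable (Y p)) (n : ℕ) :
    Measurable (fun ω => mf (fun p => Y p ω) n) := by
  unfold mf
  apply Finset.measurable_fun_prod
  intro p _
  exact (measurable_pi_apply _).comp (hm p)

/-- the default extension of a family indexed by a finite set -/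
noncomputable def ext (T : Finset ℕ) (z : T → ℕ → ℂ) : ℕ → ℕ → ℂ :=
  fun q => if h : q ∈ T then z ⟨q, h⟩ else fun _ => 1

theorem measurable_ext (T : Finset ℕ) (q j : ℕ) : Measurable (fun z : T → ℕ → ℂ => ext T z q j) := by
  unfold ext
  by_cases h : q ∈ T
  · simp only [h, dif_pos]
    exact (measurable_pi_apply j).comp (measurable_pi_apply _)
  · simp only [h, dif_neg, not_false_eq_true]
    exact measurable_const

theorem ext_apply (T : Finset ℕ) (y : ℕ → ℕ → ℂ) {q : ℕ} (h : q ∈ T) :
    ext T (fun i : T => y i) q = y q := by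
  unfold ext
  rw [dif_pos h]

theorem integral_zero {Y : ℕ → Ω → ℕ → ℂ} (hm : ∀ p, Measurable (Y p)) (hind : iIndepFun Y μ)
    (hmean : ∀ p, p.Prime → ∫ ω, Y p ω 1 ∂μ = 0) {ι : Type*} [Fintype ι] [DecidableEq ι]
    (s : ι → Bool) (n : ι → ℕ) (hn : ∀ i, n i ≠ 0) (hfull : ¬ Full (∏ i, n i)) :
    ∫ ω, ∏ i, cj (s i) (mf (fun p => Y p ω) (n i)) ∂μ = 0 := by
  classical
  unfold Full at hfull
  push Not at hfull
  obtain ⟨p, hp, hdvd, hsq⟩ := hfull
  obtain ⟨i0, -, hi0⟩ := (hp.prime.dvd_finsetProd_iff n).1 hdvd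
  have hM0 : ∏ i, n i ≠ 0 := Finset.prod_ne_zero_iff.2 fun i _ => hn i
  have hother : ∀ i, i ≠ i0 → ¬ p ∣ n i := by
    intro i hi hdi
    apply hsq
    rw [sq]
    have h1 : n i0 * n i ∣ ∏ i, n i := by
      rw [← Finset.mul_prod_erase univ n (mem_univ i0)]
      exact Nat.mul_dvd_mul_left _ (Finset.dvd_prod_of_mem n (mem_erase.2 ⟨hi, mem_univ i⟩))
    exact (Nat.mul_dvd_mul hi0 hdi).trans h1
  have hfac : (n i0).factorization p = 1 := by
    have h1 : 1 ≤ (n i0).factorization p := (hp.dvd_iff_one_le_factorization (hn i0)).1 hi0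
    have h2 : ¬ 2 ≤ (n i0).factorization p := by
      intro h2
      exact hsq (((hp.pow_dvd_iff_le_factorization (hn i0)).2 h2).trans
        (Finset.dvd_prod_of_mem n (mem_univ i0)))
    omega
  set T : Finset ℕ := (∏ i, n i).primeFactors.erase p with hT
  have hTmem : ∀ i, ∀ q ∈ (n i).primeFactors, q ≠ p → q ∈ T := by
    intro i q hq hqp
    rw [hT, mem_erase]
    refine ⟨hqp, ?_⟩
    rw [Nat.mem_primeFactors] at hq ⊢
    exact ⟨hq.1, hq.2.1.trans (Finset.dvd_prod_of_mem n (mem_univ i)), hM0⟩
  set φ : (T → ℕ → ℂ) → ℂ := fun z =>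
    cj (s i0) (∏ q ∈ (n i0).primeFactors.erase p, ext T z q ((n i0).factorization q)) *
      ∏ i ∈ univ.erase i0, cj (s i) (mf (ext T z) (n i)) with hφ
  have hφm : Measurable φ := by
    rw [hφ]
    apply Measurable.mul
    · apply (measurable_cj _).comp
      apply Finset.measurable_fun_prod
      intro q _
      exact measurable_ext T q _
    · apply Finset.measurable_fun_prod
      intro i _
      apply (measurable_cj _).comp
      unfold mf
      apply Finset.measurable_fun_prod
      intro q _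
      exact measurable_ext T q _
  have hpT : Disjoint ({p} : Finset ℕ) T := by
    rw [Finset.disjoint_singleton_left, hT]
    exact Finset.notMem_erase _ _
  have hindep := hind.indepFun_finset {p} T hpT hm
  have hpmem : p ∈ ({p} : Finset ℕ) := mem_singleton_self p
  have heq : ∀ ω, ∏ i, cj (s i) (mf (fun p => Y p ω) (n i)) =
      (fun z : ({p} : Finset ℕ) → ℕ → ℂ => cj (s i0) (z ⟨p, hpmem⟩ 1))
        ((fun a (i : ({p} : Finset ℕ)) => Y i a) ω) *
      φ ((fun a (i : T) => Y i a) ω) := by
    intro ω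
    rw [← Finset.mul_prod_erase univ _ (mem_univ i0), hφ]
    simp only
    have h1 : mf (fun p => Y p ω) (n i0) = Y p ω 1 *
        ∏ q ∈ (n i0).primeFactors.erase p, ext T (fun i : T => Y i ω) q ((n i0).factorization q) := by
      unfold mf
      rw [← Finset.mul_prod_erase _ _ (Nat.mem_primeFactors.2 ⟨hp, hi0, hn i0⟩), hfac]
      congr 1
      apply prod_congr rfl
      intro q hq
      have hq' := mem_erase.1 hq
      rw [ext_apply T (fun i => Y i ω) (hTmem i0 q hq'.2 hq'.1)]
    have h2 : ∀ i ∈ univ.erase i0, cj (s i) (mf (fun p => Y p ω) (n i)) =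
        cj (s i) (mf (ext T (fun i : T => Y i ω)) (n i)) := by
      intro i hi
      congr 1
      unfold mf
      apply prod_congr rfl
      intro q hq
      have hqp : q ≠ p := by
        rintro rfl
        exact hother i (mem_erase.1 hi).1 (Nat.dvd_of_mem_primeFactors hq)
      rw [ext_apply T (fun i => Y i ω) (hTmem i q hq hqp)]
    rw [prod_congr rfl h2, h1, map_mul, mul_assoc]
  rw [integral_congr_ae (Filter.Eventually.of_forall heq)]
  rw [hindep.integral_fun_comp_mul_comp (f := fun z : ({p} : Finset ℕ) → ℕ → ℂ =>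
      cj (s i0) (z ⟨p, hpmem⟩ 1)) (g := φ)]
  · have h3 : ∫ ω, cj (s i0) ((fun (i : ({p} : Finset ℕ)) => Y i ω) ⟨p, hpmem⟩ 1) ∂μ = 0 :=
      integral_cj (s i0) (fun ω => Y p ω 1) (hmean p hp)
    rw [h3, zero_mul]
  · exact (measurable_pi_lambda _ fun i : ({p} : Finset ℕ) => hm (i : ℕ)).aemeasurable
  · exact (measurable_pi_lambda _ fun i : T => hm (i : ℕ)).aemeasurable
  · apply Measurable.aestronglyMeasurable
    exact (measurable_cj _).comp ((measurable_pi_apply 1).comp (measurable_pi_apply _))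
  · exact hφm.aestronglyMeasurable

end Pool.Agent.K6.H91.RM
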