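import Mathlib
import Pool.Agent.K6.H91.RM.Expect

/-!
High moments of sums twisted by a random multiplicative function.
-/

set_option autoImplicit false

namespace Pool.Agent.K6.H91.RM

open Finset MeasureTheory ProbabilityTheory

/-- the twisted sum -/
noncomputable def S (y : ℕ → ℕ → ℂ) (c : ℕ → ℂ) (N : ℕ) : ℂ :=
  ∑ n ∈ Icc N (2 * N), c n * mf y n

variable {Ω : Type*} [MeasurableSpace Ω] {μ : Measure Ω}

theorem measurable_S {Y : ℕ → Ω → ℕ → ℂ} (hm : ∀ p, Measurable (Y p)) (c : ℕ → ℂ) (N : ℕ) :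
    Measurable (fun ω => S (fun p => Y p ω) c N) := by
  unfold S
  apply Finset.measurable_fun_sum
  intro n _
  exact (measurable_mf hm n).const_mul _

theorem norm_S_le {y : ℕ → ℕ → ℂ} (hy : ∀ p j, ‖y p j‖ ≤ 1) {c : ℕ → ℂ} (hc : ∀ n, ‖c n‖ ≤ 1)
    (N : ℕ) : ‖S y c N‖ ≤ N + 1 := by
  unfold S
  refine (norm_sum_le _ _).trans ?_
  calc ∑ n ∈ Icc N (2 * N), ‖c n * mf y n‖ ≤ ∑ n ∈ Icc N (2 * N), (1 : ℝ) := by
        apply sum_le_sum
        intro n _
        rw [norm_mul]
        exact mul_le_one₀ (hc n) (norm_nonneg _) (norm_mf_le hy n)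
    _ = N + 1 := by
        rw [sum_const, Nat.card_Icc, nsmul_eq_mul, mul_one]
        have : 2 * N + 1 - N = N + 1 := by omega
        rw [this]
        push_cast
        ring

theorem expand (y : ℕ → ℕ → ℂ) (c : ℕ → ℂ) (N k : ℕ) :
    ((‖S y c N‖ ^ (2 * k) : ℝ) : ℂ) = ∑ n ∈ tup k N,
      (∏ i, cj (Sum.isRight i) (c (n i))) * ∏ i, cj (Sum.isRight i) (mf y (n i)) := by
  have h1 : ((‖S y c N‖ ^ (2 * k) : ℝ) : ℂ) = ∏ i : Idx k, cj (Sum.isRight i) (S y c N) := by
    rw [Fintype.prod_sum_type]
    simp only [Sum.isRight_inl, Sum.isRight_inr, prod_const, card_univ, Fintype.card_fin, cj,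
      if_true, Bool.false_eq_true, if_false, RingHom.id_apply]
    rw [← mul_pow, Complex.mul_conj', pow_mul]
    push_cast
    rfl
  rw [h1]
  have h2 : ∀ i : Idx k, cj (Sum.isRight i) (S y c N) =
      ∑ n ∈ Icc N (2 * N), cj (Sum.isRight i) (c n * mf y n) := by
    intro i
    unfold S
    rw [map_sum]
  simp only [h2]
  rw [Finset.prod_univ_sum]
  apply sum_congr rfl
  intro n _
  rw [← prod_mul_distrib]
  apply prod_congr rfl
  intro i _
  rw [map_mul]

theorem moment [IsProbabilityMeasure μ] {Y : ℕ → Ω → ℕ → ℂ} (hm : ∀ p, Measurable (Y p))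
    (hind : iIndepFun Y μ) (hbd : ∀ p ω j, ‖Y p ω j‖ ≤ 1)
    (hmean : ∀ p, p.Prime → ∫ ω, Y p ω 1 ∂μ = 0) (k : ℕ) (hk : 1 ≤ k) (δ : ℝ) (hδ : 0 < δ) :
    ∃ C : ℝ, 0 < C ∧ ∀ N : ℕ, 1 ≤ N → ∀ c : ℕ → ℂ, (∀ n, ‖c n‖ ≤ 1) →
      ∫ ω, ‖S (fun p => Y p ω) c N‖ ^ (2 * k) ∂μ ≤ C * (N : ℝ) ^ ((k : ℝ) + δ) := by
  classical
  obtain ⟨C, hC, hcard⟩ := card_full k hk δ hδ
  refine ⟨C, hC, ?_⟩
  intro N hN c hc
  refine le_trans ?_ (hcard N hN (fun n => Full (∏ i, n i)) (fun n h => h))
  have hnn : 0 ≤ ∫ ω, ‖S (fun p => Y p ω) c N‖ ^ (2 * k) ∂μ :=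
    integral_nonneg fun ω => by positivity
  have hint : ∀ n : Idx k → ℕ, Integrable
      (fun ω => ∏ i, cj (Sum.isRight i) (mf (fun p => Y p ω) (n i))) μ := by
    intro n
    refine Integrable.of_bound (C := 1) ?_ ?_
    · apply Measurable.aestronglyMeasurable
      apply Finset.measurable_fun_prod
      intro i _
      exact (measurable_cj _).comp (measurable_mf hm (n i))
    · refine Filter.Eventually.of_forall fun ω => ?_
      rw [norm_prod]
      apply Finset.prod_le_one
      · intro i _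
        exact norm_nonneg _
      · intro i _
        rw [norm_cj]
        exact norm_mf_le (fun p j => hbd p ω j) _
  calc ∫ ω, ‖S (fun p => Y p ω) c N‖ ^ (2 * k) ∂μ
      = ‖((∫ ω, ‖S (fun p => Y p ω) c N‖ ^ (2 * k) ∂μ : ℝ) : ℂ)‖ := by
        rw [Complex.norm_real, Real.norm_of_nonneg hnn]
    _ = ‖∫ ω, ∑ n ∈ tup k N, (∏ i, cj (Sum.isRight i) (c (n i))) *
          ∏ i, cj (Sum.isRight i) (mf (fun p => Y p ω) (n i)) ∂μ‖ := by
        rw [← integral_complex_ofReal]
        congr 1
        apply integral_congr_ae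
        refine Filter.Eventually.of_forall fun ω => ?_
        exact expand _ c N k
    _ = ‖∑ n ∈ tup k N, (∏ i, cj (Sum.isRight i) (c (n i))) *
          ∫ ω, ∏ i, cj (Sum.isRight i) (mf (fun p => Y p ω) (n i)) ∂μ‖ := by
        rw [integral_finsetSum]
        · congr 1
          apply sum_congr rfl
          intro n _
          rw [integral_const_mul]
        · intro n _
          exact (hint n).const_mul _
    _ ≤ ∑ n ∈ tup k N, ‖(∏ i, cj (Sum.isRight i) (c (n i))) *
          ∫ ω, ∏ i, cj (Sum.isRight i) (mf (fun p => Y p ω) (n i)) ∂μ‖ := norm_sum_le _ _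
    _ ≤ ∑ n ∈ tup k N, if Full (∏ i, n i) then (1 : ℝ) else 0 := by
        apply sum_le_sum
        intro n hn
        rw [tup, Fintype.mem_piFinset] at hn
        have hn0 : ∀ i, n i ≠ 0 := by
          intro i
          have := mem_Icc.1 (hn i)
          omega
        split_ifs with hf
        · rw [norm_mul, norm_prod]
          apply mul_le_one₀
          · apply Finset.prod_le_one
            · intro i _
              exact norm_nonneg _
            · intro i _
              rw [norm_cj]
              exact hc _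
          · exact norm_nonneg _
          · refine (norm_integral_le_of_norm_le_const (C := 1)
              (Filter.Eventually.of_forall fun ω => ?_)).trans ?_
            · rw [norm_prod]
              apply Finset.prod_le_one
              · intro i _
                exact norm_nonneg _
              · intro i _
                rw [norm_cj]
                exact norm_mf_le (fun p j => hbd p ω j) _
            · simp
        · rw [integral_zero hm hind hmean _ n hn0 hf]
          simp
    _ = (((tup k N).filter (fun n => Full (∏ i, n i))).card : ℝ) := by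
        rw [← sum_filter, sum_const, nsmul_eq_mul, mul_one]

end Pool.Agent.K6.H91.RM
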