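import Mathlib
import Pool.Agent.K6.H91.RM.Moment

/-!
Almost sure bounds for polynomially many twisted sums (Borel-Cantelli).
-/

set_option autoImplicit false

namespace Pool.Agent.K6.H91.RM

open Finset MeasureTheory ProbabilityTheory

variable {Ω : Type*} [MeasurableSpace Ω] {μ : Measure Ω}

theorem family [IsProbabilityMeasure μ] {Y : ℕ → Ω → ℕ → ℂ} (hm : ∀ p, Measurable (Y p))
    (hind : iIndepFun Y μ) (hbd : ∀ p ω j, ‖Y p ω j‖ ≤ 1)
    (hmean : ∀ p, p.Prime → ∫ ω, Y p ω 1 ∂μ = 0) {ι' : Type*} (J : ℕ → Finset ι')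
    (c : ℕ → ι' → ℕ → ℂ) (hc : ∀ N j n, ‖c N j n‖ ≤ 1) (B C1 : ℕ)
    (hJ : ∀ N, 1 ≤ N → (J N).card ≤ C1 * N ^ B) (ε : ℝ) (hε : 0 < ε) :
    ∀ᵐ ω ∂μ, ∃ C : ℝ, 0 < C ∧ ∀ N : ℕ, 1 ≤ N → ∀ j ∈ J N,
      ‖S (fun p => Y p ω) (c N j) N‖ ≤ C * (N : ℝ) ^ ((1 : ℝ) / 2 + ε) := by
  obtain ⟨k, hk⟩ : ∃ k : ℕ, ((B : ℝ) + 3) / (2 * ε) ≤ k := exists_nat_ge _
  have hk1 : 1 ≤ k := by
    have h1 : (0 : ℝ) < ((B : ℝ) + 3) / (2 * ε) := by positivity
    have h2 : (0 : ℝ) < k := h1.trans_le hk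
    exact_mod_cast h2
  have hk2 : (B : ℝ) + 3 ≤ 2 * k * ε := by
    rw [div_le_iff₀ (by positivity)] at hk
    linarith
  obtain ⟨C, hC, hmom⟩ := moment hm hind hbd hmean k hk1 1 one_pos
  set s : ℕ → Set Ω := fun N => if N = 0 then ∅ else
    ⋃ j ∈ J N, {ω | (N : ℝ) ^ ((1 : ℝ) / 2 + ε) ≤ ‖S (fun p => Y p ω) (c N j) N‖} with hs
  have hone : ∀ N : ℕ, 1 ≤ N → ∀ j,
      μ {ω | (N : ℝ) ^ ((1 : ℝ) / 2 + ε) ≤ ‖S (fun p => Y p ω) (c N j) N‖} ≤
        ENNReal.ofReal (C * (N : ℝ) ^ (-(B : ℝ) - 2)) := by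
    intro N hN j
    have hNr : (1 : ℝ) ≤ N := by exact_mod_cast hN
    have hN0 : (0 : ℝ) < N := by linarith
    set L : ℝ := (N : ℝ) ^ ((1 : ℝ) / 2 + ε) with hL
    have hL0 : 0 < L := by positivity
    have hmeas := measurable_S hm (c N j) N
    have hint : Integrable (fun ω => ‖S (fun p => Y p ω) (c N j) N‖ ^ (2 * k)) μ := by
      refine Integrable.of_bound (C := ((N : ℝ) + 1) ^ (2 * k)) ?_ ?_
      · exact (hmeas.norm.pow_const _).aestronglyMeasurable
      · refine Filter.Eventually.of_forall fun ω => ?_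
        rw [Real.norm_of_nonneg (by positivity)]
        exact pow_le_pow_left₀ (norm_nonneg _)
          (norm_S_le (fun p j => hbd p ω j) (fun n => hc N j n) N) _
    have h1 := mul_meas_ge_le_integral_of_nonneg
      (Filter.Eventually.of_forall fun ω => by positivity) hint (L ^ (2 * k))
    have h2 := h1.trans (hmom N hN (c N j) (hc N j))
    have h3 : {ω | L ≤ ‖S (fun p => Y p ω) (c N j) N‖} ⊆
        {ω | L ^ (2 * k) ≤ ‖S (fun p => Y p ω) (c N j) N‖ ^ (2 * k)} := by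
      intro ω hω
      exact pow_le_pow_left₀ hL0.le hω _
    have h4 : μ.real {ω | L ≤ ‖S (fun p => Y p ω) (c N j) N‖} ≤
        C * (N : ℝ) ^ (-(B : ℝ) - 2) := by
      have h5 : L ^ (2 * k) * μ.real {ω | L ≤ ‖S (fun p => Y p ω) (c N j) N‖} ≤
          C * (N : ℝ) ^ ((k : ℝ) + 1) :=
        le_trans (mul_le_mul_of_nonneg_left (measureReal_mono h3) (by positivity)) h2
      have h6 : L ^ (2 * k) = (N : ℝ) ^ ((k : ℝ) + 2 * k * ε) := by
        rw [hL, ← Real.rpow_natCast, ← Real.rpow_mul hN0.le]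
        congr 1
        push_cast
        ring
      have h7 : C * (N : ℝ) ^ ((k : ℝ) + 1) ≤
          L ^ (2 * k) * (C * (N : ℝ) ^ (-(B : ℝ) - 2)) := by
        rw [h6, mul_left_comm, ← Real.rpow_add hN0]
        apply mul_le_mul_of_nonneg_left _ hC.le
        apply Real.rpow_le_rpow_of_exponent_le hNr
        linarith
      exact le_of_mul_le_mul_left (h5.trans h7) (by positivity)
    rw [← ofReal_measureReal]
    exact ENNReal.ofReal_le_ofReal h4
  have hsN : ∀ N : ℕ, μ (s N) ≤ ENNReal.ofReal (C1 * C * (1 / (N : ℝ) ^ 2)) := by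
    intro N
    rcases Nat.eq_zero_or_pos N with rfl | hN
    · simp [hs]
    · have hNr : (1 : ℝ) ≤ N := by exact_mod_cast hN
      have hN0 : (0 : ℝ) < N := by linarith
      have h1 : s N = ⋃ j ∈ J N,
          {ω | (N : ℝ) ^ ((1 : ℝ) / 2 + ε) ≤ ‖S (fun p => Y p ω) (c N j) N‖} := by
        rw [hs]
        simp only [if_neg (by omega : ¬ N = 0)]
      rw [h1]
      refine (measure_biUnion_finset_le _ _).trans ?_
      refine (sum_le_sum fun j _ => hone N hN j).trans ?_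
      rw [sum_const, nsmul_eq_mul]
      have h2 : ((J N).card : ENNReal) ≤ ENNReal.ofReal ((C1 : ℝ) * (N : ℝ) ^ B) := by
        have h3 : (((J N).card : ℕ) : ENNReal) ≤ ((C1 * N ^ B : ℕ) : ENNReal) := by
          exact_mod_cast hJ N hN
        refine h3.trans (le_of_eq ?_)
        rw [← ENNReal.ofReal_natCast]
        congr 1
        push_cast
        ring
      refine (mul_le_mul_left h2 _).trans ?_
      rw [← ENNReal.ofReal_mul (by positivity)]
      apply ENNReal.ofReal_le_ofReal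
      apply le_of_eq
      have h4 : (N : ℝ) ^ (-(B : ℝ) - 2) = 1 / (N : ℝ) ^ B * (1 / (N : ℝ) ^ 2) := by
        rw [sub_eq_add_neg, Real.rpow_add hN0, Real.rpow_neg hN0.le, Real.rpow_neg hN0.le,
          Real.rpow_natCast, one_div, one_div]
        norm_num
      rw [h4]
      field_simp
  have hsum : (∑' N, μ (s N)) ≠ ⊤ := by
    have h1 : Summable (fun N : ℕ => (C1 : ℝ) * C * (1 / (N : ℝ) ^ 2)) :=
      (Real.summable_one_div_nat_pow.2 (by norm_num)).mul_left _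
    have h2 : (∑' N, μ (s N)) ≤ ∑' N : ℕ, ENNReal.ofReal (C1 * C * (1 / (N : ℝ) ^ 2)) :=
      ENNReal.tsum_le_tsum hsN
    rw [← ENNReal.ofReal_tsum_of_nonneg (fun N => by positivity) h1] at h2
    exact ne_top_of_le_ne_top ENNReal.ofReal_ne_top h2
  filter_upwards [ae_eventually_notMem hsum] with ω hω
  obtain ⟨N0, hN0⟩ := Filter.eventually_atTop.1 hω
  refine ⟨N0 + 2, by positivity, ?_⟩
  intro N hN j hj
  have hNr : (1 : ℝ) ≤ N := by exact_mod_cast hN
  have hpow : (1 : ℝ) ≤ (N : ℝ) ^ ((1 : ℝ) / 2 + ε) := Real.one_le_rpow hNr (by positivity)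
  rcases Nat.lt_or_ge N N0 with h | h
  · have h1 : ((N : ℝ)) + 1 ≤ N0 + 2 := by
      have : (N : ℝ) ≤ N0 := by exact_mod_cast h.le
      linarith
    calc ‖S (fun p => Y p ω) (c N j) N‖ ≤ N + 1 :=
          norm_S_le (fun p j => hbd p ω j) (fun n => hc N j n) N
      _ ≤ N0 + 2 := h1
      _ ≤ (N0 + 2) * (N : ℝ) ^ ((1 : ℝ) / 2 + ε) := le_mul_of_one_le_right (by positivity) hpow
  · have h1 := hN0 N h
    rw [hs] at h1
    simp only [if_neg (by omega : ¬ N = 0), Set.mem_iUnion, Set.mem_ofPred_eq, exists_prop,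
      not_exists, not_and, not_le] at h1
    have h2 := (h1 j hj).le
    refine h2.trans ?_
    apply le_mul_of_one_le_left (by positivity)
    have : (0 : ℝ) ≤ N0 := Nat.cast_nonneg _
    linarith

end Pool.Agent.K6.H91.RM
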