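import Mathlib
import Pool.Agent.K6.H91.RM.Family

/-!
Uniformity over Lipschitz families of coefficients, intervals and shifts `n ^ (it)`.
-/

set_option autoImplicit false

namespace Pool.Agent.K6.H91.RM

open Finset MeasureTheory ProbabilityTheory

/-- the coefficients: `b(x, n) n^{it}` on the interval `[u, v]` -/
noncomputable def cf {d : ℕ} (b : ℕ → ℕ → (Fin d → ℝ) → ℕ → ℂ) (N k u v : ℕ) (x : Fin d → ℝ)
    (t : ℝ) (n : ℕ) : ℂ :=
  (if u ≤ n ∧ n ≤ v then b N k x n else 0) * Complex.exp (Complex.I * ((t * Real.log n : ℝ) : ℂ))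

theorem norm_ph (r : ℝ) : ‖Complex.exp (Complex.I * (r : ℂ))‖ = 1 := by
  rw [mul_comm, Complex.norm_exp_ofReal_mul_I]

theorem norm_cf_le {d : ℕ} {b : ℕ → ℕ → (Fin d → ℝ) → ℕ → ℂ} (hb : ∀ N k x n, ‖b N k x n‖ ≤ 1)
    (N k u v : ℕ) (x : Fin d → ℝ) (t : ℝ) (n : ℕ) : ‖cf b N k u v x t n‖ ≤ 1 := by
  unfold cf
  rw [norm_mul, norm_ph, mul_one]
  split_ifs
  · exact hb _ _ _ _
  · simp

theorem ph_sub (r s : ℝ) : ‖Complex.exp (Complex.I * (r : ℂ)) - Complex.exp (Complex.I * (s : ℂ))‖ ≤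
    |r - s| := by
  have h1 : Complex.exp (Complex.I * (r : ℂ)) - Complex.exp (Complex.I * (s : ℂ)) =
      Complex.exp (Complex.I * (s : ℂ)) * (Complex.exp (Complex.I * ((r - s : ℝ) : ℂ)) - 1) := by
    rw [mul_sub, mul_one, ← Complex.exp_add]
    congr 2
    push_cast
    ring
  rw [h1, norm_mul, norm_ph, one_mul]
  have := Real.norm_exp_I_mul_ofReal_sub_one_le (x := r - s)
  rwa [Real.norm_eq_abs] at this

theorem cf_sub {d : ℕ} {b : ℕ → ℕ → (Fin d → ℝ) → ℕ → ℂ} (hb : ∀ N k x n, ‖b N k x n‖ ≤ 1)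
    (N k u v : ℕ) (x x' : Fin d → ℝ) (t t' : ℝ) (n : ℕ) (hn : 1 ≤ n) (η θ : ℝ)
    (hx : ‖b N k x n - b N k x' n‖ ≤ η) (ht : |t - t'| ≤ θ) :
    ‖cf b N k u v x t n - cf b N k u v x' t' n‖ ≤ η + θ * n := by
  have hη : 0 ≤ η := (norm_nonneg _).trans hx
  have hθ : 0 ≤ θ := (abs_nonneg _).trans ht
  have hnr : (1 : ℝ) ≤ n := by exact_mod_cast hn
  have hlog : 0 ≤ Real.log n := Real.log_nonneg hnr
  have hlog2 : Real.log n ≤ n := (Real.log_le_sub_one_of_pos (by positivity)).trans (by linarith)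
  unfold cf
  split_ifs
  · have h1 : b N k x n * Complex.exp (Complex.I * ((t * Real.log n : ℝ) : ℂ)) -
        b N k x' n * Complex.exp (Complex.I * ((t' * Real.log n : ℝ) : ℂ)) =
        (b N k x n - b N k x' n) * Complex.exp (Complex.I * ((t * Real.log n : ℝ) : ℂ)) +
        b N k x' n * (Complex.exp (Complex.I * ((t * Real.log n : ℝ) : ℂ)) -
          Complex.exp (Complex.I * ((t' * Real.log n : ℝ) : ℂ))) := by ring
    rw [h1]
    refine (norm_add_le _ _).trans ?_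
    rw [norm_mul, norm_ph, mul_one, norm_mul]
    have h2 : ‖Complex.exp (Complex.I * ((t * Real.log n : ℝ) : ℂ)) -
          Complex.exp (Complex.I * ((t' * Real.log n : ℝ) : ℂ))‖ ≤ θ * n := by
      refine (ph_sub _ _).trans ?_
      rw [← sub_mul, abs_mul, abs_of_nonneg hlog]
      exact mul_le_mul ht hlog2 hlog hθ
    have h3 : ‖b N k x' n‖ * ‖Complex.exp (Complex.I * ((t * Real.log n : ℝ) : ℂ)) -
          Complex.exp (Complex.I * ((t' * Real.log n : ℝ) : ℂ))‖ ≤ 1 * (θ * n) :=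
      mul_le_mul (hb _ _ _ _) h2 (norm_nonneg _) zero_le_one
    linarith
  · simp only [zero_mul, sub_self, norm_zero]
    positivity

variable {Ω : Type*} [MeasurableSpace Ω] {μ : Measure Ω}

theorem S_sub {y : ℕ → ℕ → ℂ} (hy : ∀ p j, ‖y p j‖ ≤ 1) (c c' : ℕ → ℂ) (N : ℕ) (η : ℝ)
    (h : ∀ n ∈ Icc N (2 * N), ‖c n - c' n‖ ≤ η) : ‖S y c N - S y c' N‖ ≤ (N + 1) * η := by
  unfold S
  rw [← sum_sub_distrib]
  refine (norm_sum_le _ _).trans ?_
  calc ∑ n ∈ Icc N (2 * N), ‖c n * mf y n - c' n * mf y n‖ ≤ ∑ n ∈ Icc N (2 * N), η := by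
        apply sum_le_sum
        intro n hn
        rw [← sub_mul, norm_mul]
        have h1 := h n hn
        have h2 := norm_mf_le hy n
        calc ‖c n - c' n‖ * ‖mf y n‖ ≤ η * 1 :=
              mul_le_mul h1 h2 (norm_nonneg _) ((norm_nonneg _).trans h1)
          _ = η := mul_one _
    _ = (N + 1) * η := by
        rw [sum_const, Nat.card_Icc, nsmul_eq_mul]
        have : 2 * N + 1 - N = N + 1 := by omega
        rw [this]
        push_cast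
        ring

/-- the statement for fixed exponents -/
theorem unif [IsProbabilityMeasure μ] {Y : ℕ → Ω → ℕ → ℂ} (hm : ∀ p, Measurable (Y p))
    (hind : iIndepFun Y μ) (hbd : ∀ p ω j, ‖Y p ω j‖ ≤ 1)
    (hmean : ∀ p, p.Prime → ∫ ω, Y p ω 1 ∂μ = 0) {d : ℕ} (A : ℕ) (K : ℝ) (hK : 0 ≤ K)
    (b : ℕ → ℕ → (Fin d → ℝ) → ℕ → ℂ) (hb : ∀ N k x n, ‖b N k x n‖ ≤ 1)
    (hLip : ∀ N k n, 1 ≤ N → n ≤ 2 * N → ∀ x x' : Fin d → ℝ, (∀ i, x i ∈ Set.Icc (0 : ℝ) 1) →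
      (∀ i, x' i ∈ Set.Icc (0 : ℝ) 1) → ∀ η : ℝ, 0 ≤ η → (∀ i, |x i - x' i| ≤ η) →
      ‖b N k x n - b N k x' n‖ ≤ K * N ^ A * η) (a : ℕ) (ε : ℝ) (hε : 0 < ε) :
    ∀ᵐ ω ∂μ, ∃ C : ℝ, 0 < C ∧ ∀ N : ℕ, 1 ≤ N → ∀ k ≤ N ^ a, ∀ u v : ℕ,
      ∀ x : Fin d → ℝ, (∀ i, x i ∈ Set.Icc (0 : ℝ) 1) → ∀ t : ℝ, |t| ≤ (N : ℝ) ^ a →
      ‖S (fun p => Y p ω) (cf b N k u v x t) N‖ ≤ C * (N : ℝ) ^ ((1 : ℝ) / 2 + ε) := by
  classical
  set L : ℕ := A + 2 with hL
  set J : ℕ → Finset ((ℕ × ℕ × ℕ) × ℤ × (Fin d → ℕ)) := fun N =>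
    (range (N ^ a + 1) ×ˢ range (2 * N + 2) ×ˢ range (2 * N + 1)) ×ˢ
      (Icc (-(N : ℤ) ^ (a + L)) ((N : ℤ) ^ (a + L)) ×ˢ
        Fintype.piFinset (fun _ : Fin d => range (N ^ L + 1))) with hJ
  set c : ℕ → ((ℕ × ℕ × ℕ) × ℤ × (Fin d → ℕ)) → ℕ → ℂ := fun N j =>
    cf b N j.1.1 j.1.2.1 j.1.2.2 (fun i => (j.2.2 i : ℝ) / (N : ℝ) ^ L)
      ((j.2.1 : ℝ) / (N : ℝ) ^ L) with hc
  have hcard : ∀ N, 1 ≤ N → (J N).card ≤ (72 * 2 ^ d) * N ^ (2 * a + 2 + L + L * d) := by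
    intro N hN
    have hcz : (Icc (-(N : ℤ) ^ (a + L)) ((N : ℤ) ^ (a + L))).card = 2 * N ^ (a + L) + 1 := by
      rw [Int.card_Icc]
      have : ((N : ℤ) ^ (a + L) + 1 - -(N : ℤ) ^ (a + L)) = ((2 * N ^ (a + L) + 1 : ℕ) : ℤ) := by
        push_cast
        ring
      rw [this, Int.toNat_natCast]
    rw [hJ]
    simp only [card_product, card_range, hcz, Fintype.card_piFinset, prod_const, card_univ,
      Fintype.card_fin]
    have e1 : N ^ a + 1 ≤ 2 * N ^ a := by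
      have := Nat.one_le_pow a N hN
      omega
    have e2 : 2 * N + 2 ≤ 4 * N := by omega
    have e3 : 2 * N + 1 ≤ 3 * N := by omega
    have e4 : 2 * N ^ (a + L) + 1 ≤ 3 * N ^ (a + L) := by
      have := Nat.one_le_pow (a + L) N hN
      omega
    have e5 : N ^ L + 1 ≤ 2 * N ^ L := by
      have := Nat.one_le_pow L N hN
      omega
    calc (N ^ a + 1) * ((2 * N + 2) * (2 * N + 1)) * ((2 * N ^ (a + L) + 1) * (N ^ L + 1) ^ d)
        ≤ (2 * N ^ a) * ((4 * N) * (3 * N)) * ((3 * N ^ (a + L)) * (2 * N ^ L) ^ d) := by gcongr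
      _ = (72 * 2 ^ d) * N ^ (2 * a + 2 + L + L * d) := by
          rw [mul_pow, ← pow_mul]
          ring
  have hfam := family hm hind hbd hmean J c
    (fun N j n => norm_cf_le hb _ _ _ _ _ _ _) (2 * a + 2 + L + L * d) (72 * 2 ^ d) hcard ε hε
  filter_upwards [hfam] with ω hω
  obtain ⟨C, hC, hCb⟩ := hω
  refine ⟨C + (2 * K + 4), by positivity, ?_⟩
  intro N hN k hk u v x hx t ht
  have hNr : (1 : ℝ) ≤ N := by exact_mod_cast hN
  have hN0 : (0 : ℝ) < N := by linarith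
  have hNL : (0 : ℝ) < (N : ℝ) ^ L := by positivity
  have hpow : (1 : ℝ) ≤ (N : ℝ) ^ ((1 : ℝ) / 2 + ε) := Real.one_le_rpow hNr (by positivity)
  -- the point of the net
  set m0 : ℤ := ⌊t * (N : ℝ) ^ L⌋ with hm0
  set m : Fin d → ℕ := fun i => ⌊x i * (N : ℝ) ^ L⌋₊ with hmdef
  set j : (ℕ × ℕ × ℕ) × ℤ × (Fin d → ℕ) :=
    ((k, min u (2 * N + 1), min v (2 * N)), m0, m) with hj
  have hm0b : -((N : ℤ) ^ (a + L)) ≤ m0 ∧ m0 ≤ (N : ℤ) ^ (a + L) := by
    have h1 := abs_le.1 ht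
    constructor
    · rw [hm0, Int.le_floor]
      push_cast
      rw [pow_add (N : ℝ) a L, ← neg_mul]
      exact mul_le_mul_of_nonneg_right h1.1 hNL.le
    · have h2 : (m0 : ℝ) ≤ (((N : ℤ) ^ (a + L) : ℤ) : ℝ) := by
        refine (Int.floor_le _).trans ?_
        push_cast
        rw [pow_add (N : ℝ) a L]
        exact mul_le_mul_of_nonneg_right h1.2 hNL.le
      exact_mod_cast h2
  have hmb : ∀ i, m i < N ^ L + 1 := by
    intro i
    have h1 : (m i : ℝ) ≤ (N : ℝ) ^ L := by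
      refine (Nat.floor_le (mul_nonneg (hx i).1 hNL.le)).trans ?_
      exact mul_le_of_le_one_left hNL.le (hx i).2
    have h2 : m i ≤ N ^ L := by exact_mod_cast h1
    omega
  have hjJ : j ∈ J N := by
    rw [hJ, hj]
    simp only [mem_product, mem_range, mem_Icc, Fintype.mem_piFinset]
    refine ⟨⟨by omega, by omega, by omega⟩, hm0b, hmb⟩
  have hCj := hCb N hN j hjJ
  -- the comparison
  have hcut : ∀ n ∈ Icc N (2 * N), cf b N k u v x t n =
      cf b N k (min u (2 * N + 1)) (min v (2 * N)) x t n := by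
    intro n hn
    have hn' := mem_Icc.1 hn
    unfold cf
    congr 1
    have : (u ≤ n ∧ n ≤ v) ↔ (min u (2 * N + 1) ≤ n ∧ n ≤ min v (2 * N)) := by omega
    simp only [this]
  have hS1 : S (fun p => Y p ω) (cf b N k u v x t) N =
      S (fun p => Y p ω) (cf b N k (min u (2 * N + 1)) (min v (2 * N)) x t) N := by
    unfold S
    apply sum_congr rfl
    intro n hn
    rw [hcut n hn]
  have hdiff : ‖S (fun p => Y p ω) (cf b N k (min u (2 * N + 1)) (min v (2 * N)) x t) N -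
      S (fun p => Y p ω) (c N j) N‖ ≤
      (N + 1) * (K * (N : ℝ) ^ A * (1 / (N : ℝ) ^ L) + (1 / (N : ℝ) ^ L) * (2 * N)) := by
    apply S_sub (fun p j => hbd p ω j)
    intro n hn
    have hn' := mem_Icc.1 hn
    have hn1 : 1 ≤ n := by omega
    have hx1 : ∀ i, |x i - (m i : ℝ) / (N : ℝ) ^ L| ≤ 1 / (N : ℝ) ^ L := by
      intro i
      have h1 : (m i : ℝ) ≤ x i * (N : ℝ) ^ L := Nat.floor_le (mul_nonneg (hx i).1 hNL.le)
      have h2 : x i * (N : ℝ) ^ L < m i + 1 := Nat.lt_floor_add_one _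
      rw [abs_le]
      constructor
      · have : (m i : ℝ) / (N : ℝ) ^ L ≤ x i := by rw [div_le_iff₀ hNL]; exact h1
        have h3 : 0 < 1 / (N : ℝ) ^ L := by positivity
        linarith
      · rw [sub_le_iff_le_add, ← add_div, le_div_iff₀ hNL]
        linarith
    have ht1 : |t - (m0 : ℝ) / (N : ℝ) ^ L| ≤ 1 / (N : ℝ) ^ L := by
      have h1 : (m0 : ℝ) ≤ t * (N : ℝ) ^ L := Int.floor_le _
      have h2 : t * (N : ℝ) ^ L < m0 + 1 := Int.lt_floor_add_one _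
      rw [abs_le]
      constructor
      · have : (m0 : ℝ) / (N : ℝ) ^ L ≤ t := by rw [div_le_iff₀ hNL]; exact h1
        have h3 : 0 < 1 / (N : ℝ) ^ L := by positivity
        linarith
      · rw [sub_le_iff_le_add, ← add_div, le_div_iff₀ hNL]
        linarith
    have hx' : ∀ i, (m i : ℝ) / (N : ℝ) ^ L ∈ Set.Icc (0 : ℝ) 1 := by
      intro i
      constructor
      · positivity
      · rw [div_le_one hNL]
        exact_mod_cast Nat.lt_succ_iff.1 (hmb i)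
    have h1 := cf_sub hb N k (min u (2 * N + 1)) (min v (2 * N)) x
      (fun i => (m i : ℝ) / (N : ℝ) ^ L) t ((m0 : ℝ) / (N : ℝ) ^ L) n hn1 _ _
      (hLip N k n hN hn'.2 x _ hx hx' (1 / (N : ℝ) ^ L) (by positivity) hx1) ht1
    refine h1.trans ?_
    have h2 : (n : ℝ) ≤ 2 * N := by exact_mod_cast hn'.2
    gcongr
  have hsmall : ((N : ℝ) + 1) * (K * (N : ℝ) ^ A * (1 / (N : ℝ) ^ L) +
      (1 / (N : ℝ) ^ L) * (2 * N)) ≤ 2 * K + 4 := by
    have h1 : (N : ℝ) ^ A * (1 / (N : ℝ) ^ L) = 1 / (N : ℝ) ^ 2 := by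
      rw [hL, pow_add]
      field_simp
    have h2 : (1 / (N : ℝ) ^ L) ≤ 1 / (N : ℝ) ^ 2 := by
      apply one_div_le_one_div_of_le (by positivity)
      exact pow_le_pow_right₀ hNr (by omega)
    have h3 : (N : ℝ) + 1 ≤ 2 * N := by linarith
    have h4 : 1 / (N : ℝ) ^ 2 * (2 * N) * N = 2 := by field_simp
    have h5 : 1 / (N : ℝ) ^ 2 * N ≤ 1 := by
      rw [one_div, inv_mul_le_iff₀ (by positivity), mul_one, sq]
      exact le_mul_of_one_le_left hN0.le hNr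
    calc ((N : ℝ) + 1) * (K * (N : ℝ) ^ A * (1 / (N : ℝ) ^ L) + (1 / (N : ℝ) ^ L) * (2 * N))
        ≤ (2 * N) * (K * (1 / (N : ℝ) ^ 2) + (1 / (N : ℝ) ^ 2) * (2 * N)) := by
          rw [mul_assoc K, h1]
          gcongr
      _ = 2 * (K * (1 / (N : ℝ) ^ 2 * N)) + 2 * (1 / (N : ℝ) ^ 2 * (2 * N) * N) := by ring
      _ ≤ 2 * (K * 1) + 2 * 2 := by
          rw [h4]
          gcongr
      _ = 2 * K + 4 := by ring
  rw [hS1]
  calc ‖S (fun p => Y p ω) (cf b N k (min u (2 * N + 1)) (min v (2 * N)) x t) N‖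
      ≤ ‖S (fun p => Y p ω) (c N j) N‖ +
        ‖S (fun p => Y p ω) (cf b N k (min u (2 * N + 1)) (min v (2 * N)) x t) N -
          S (fun p => Y p ω) (c N j) N‖ := by
        have := norm_add_le (S (fun p => Y p ω) (c N j) N)
          (S (fun p => Y p ω) (cf b N k (min u (2 * N + 1)) (min v (2 * N)) x t) N -
          S (fun p => Y p ω) (c N j) N)
        rwa [add_sub_cancel] at this
    _ ≤ C * (N : ℝ) ^ ((1 : ℝ) / 2 + ε) + (2 * K + 4) := add_le_add hCj (hdiff.trans hsmall)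
    _ ≤ C * (N : ℝ) ^ ((1 : ℝ) / 2 + ε) + (2 * K + 4) * (N : ℝ) ^ ((1 : ℝ) / 2 + ε) := by
        gcongr
        exact le_mul_of_one_le_right (by positivity) hpow
    _ = (C + (2 * K + 4)) * (N : ℝ) ^ ((1 : ℝ) / 2 + ε) := by ring

end Pool.Agent.K6.H91.RM
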