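import Mathlib
import Pool.Agent.K6.H91.RM.Net

/-!
The random completely multiplicative function with the values `±1`.
-/

set_option autoImplicit false

namespace Pool.Agent.K6.H91.RM

open Finset MeasureTheory ProbabilityTheory

/-- a fair coin -/
noncomputable def coin : Measure Bool :=
  (2⁻¹ : ENNReal) • Measure.dirac true + (2⁻¹ : ENNReal) • Measure.dirac false

instance : IsProbabilityMeasure coin := by
  constructor
  simp [coin, ENNReal.inv_two_add_inv_two]

/-- the sign -/
def sg (c : Bool) : ℤ := if c then 1 else -1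

theorem sg_eq (c : Bool) : sg c = 1 ∨ sg c = -1 := by
  cases c <;> simp [sg]

/-- independent coins -/
noncomputable def coins : Measure (ℕ → Bool) := Measure.infinitePi fun _ => coin

noncomputable instance : IsProbabilityMeasure coins := by
  unfold coins
  infer_instance

/-- the values at the prime powers -/
noncomputable def YS (p : ℕ) (ω : ℕ → Bool) (j : ℕ) : ℂ := ((sg (ω p) : ℤ) : ℂ) ^ j

theorem YS_meas (p : ℕ) : Measurable (YS p) := by
  have h : Measurable (fun c : Bool => fun j : ℕ => ((sg c : ℤ) : ℂ) ^ j) := measurable_of_finite _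
  exact h.comp (measurable_pi_apply p)

theorem YS_indep : iIndepFun YS coins := by
  have h := iIndepFun_infinitePi (P := fun _ : ℕ => coin)
    (X := fun (_ : ℕ) (c : Bool) => fun j : ℕ => ((sg c : ℤ) : ℂ) ^ j)
    (fun _ => measurable_of_finite _)
  exact h

theorem YS_bound (p : ℕ) (ω : ℕ → Bool) (j : ℕ) : ‖YS p ω j‖ ≤ 1 := by
  unfold YS
  rw [norm_pow]
  rcases sg_eq (ω p) with h | h <;> simp [h]

theorem YS_mean (p : ℕ) : ∫ ω, YS p ω 1 ∂coins = 0 := by
  have h1 : ∫ ω, YS p ω 1 ∂coins = ∫ c, ((sg c : ℤ) : ℂ) ∂coin := by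
    have h2 : (coins).map (fun ω : ℕ → Bool => ω p) = coin := by
      unfold coins
      exact Measure.infinitePi_map_eval _ p
    rw [← h2, integral_map (measurable_pi_apply p).aemeasurable]
    · simp [YS]
    · exact (measurable_of_finite (fun c : Bool => ((sg c : ℤ) : ℂ))).aestronglyMeasurable
  rw [h1, coin, integral_add_measure, integral_smul_measure, integral_smul_measure,
    integral_dirac, integral_dirac]
  · simp [sg]
  · exact (Integrable.of_finite (μ := Measure.dirac true)).smul_measure (by simp)
  · exact (Integrable.of_finite (μ := Measure.dirac false)).smul_measure (by simp)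

/-- the completely multiplicative function with the values `s p = ±1` at the primes -/
def cm (s : ℕ → ℤ) (n : ℕ) : ℤ := ∏ p ∈ n.primeFactors, s p ^ n.factorization p

theorem cm_mul (s : ℕ → ℤ) {m n : ℕ} (hm : m ≠ 0) (hn : n ≠ 0) : cm s (m * n) = cm s m * cm s n := by
  have h : ∀ k : ℕ, cm s k = k.factorization.prod fun p j => s p ^ j := fun k => rfl
  rw [h, h, h, Nat.factorization_mul hm hn, Finsupp.prod_add_index' (fun _ => pow_zero _)
    (fun _ _ _ => pow_add _ _ _)]

theorem cm_eq {s : ℕ → ℤ} (hs : ∀ p, s p = 1 ∨ s p = -1) (n : ℕ) : cm s n = 1 ∨ cm s n = -1 := by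
  unfold cm
  have h : ∀ F : Finset ℕ, ∏ p ∈ F, s p ^ n.factorization p = 1 ∨
      ∏ p ∈ F, s p ^ n.factorization p = -1 := by
    intro F
    induction F using Finset.induction_on with
    | empty => simp
    | insert a F ha ih =>
      rw [Finset.prod_insert ha]
      have h1 : s a ^ n.factorization a = 1 ∨ s a ^ n.factorization a = -1 := by
        rcases hs a with h | h
        · left
          rw [h, one_pow]
        · rw [h]
          exact neg_one_pow_eq_or ℤ _
      rcases h1 with h1 | h1 <;> rcases ih with h2 | h2 <;> simp [h1, h2]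
  exact h _

theorem mf_YS (ω : ℕ → Bool) (n : ℕ) :
    mf (fun p => YS p ω) n = ((cm (fun p => sg (ω p)) n : ℤ) : ℂ) := by
  unfold mf cm YS
  push_cast
  rfl

end Pool.Agent.K6.H91.RM
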