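import Mathlib
import Pool.Agent.K6.H91.RM.Sign

set_option autoImplicit false

/-!
# Montgomery's `ℓ^q` inequality for arbitrary coefficients twisted by a random multiplicative function

Let `f` be a random multiplicative function: the sequences `(f(p), f(p²), …)` are independent for the
different primes `p`, the values have modulus at most `1` and `f(p)` has mean value `0`. (For instance
`f` completely multiplicative and `f(p)` uniformly distributed on the unit circle, or `f(p) = ±1` with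
probability `1/2` each, or `f(n) = μ(n)² ∏_{p ∣ n} f(p)`.) Let `b_N(x, n)` be any coefficients of
modulus at most `1`; they may depend on `N`, on an index `k ≤ N^B` and, in a Lipschitz way, on a
parameter `x ∈ [0,1]^d`. (For instance `b_n e(x_1 n + … + x_d n^d) χ(n)`, `χ` any Dirichlet character
of modulus at most `N^(B/2)`.) Then almost surely for all `ε, B` there is `C` such that

`|∑_{N ≤ n ≤ 2N, u ≤ n ≤ v} b_N(x, n) f(n) n^{it}| ≤ C N^(1/2+ε)`

for all `N, u, v`, all `k ≤ N^B`, all `x` and all `|t| ≤ N^B`; so the inequality of Q1 holds for these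
polynomials for all `q` and all `A`, even if `k, x, u, v` depend on `t`. In particular for any given
coefficients there is a completely multiplicative `f` with values `±1` for which this is true.

The `2k`-th moment over `f` is bounded by the number of the `2k`-tuples of integers of `[N, 2N]` with
a square-full product, which is `O(N^(k+ε))`; then the lemma of Borel and Cantelli and a net.
-/

namespace Pool.Agent.K6.H91.RM.Main

open Finset MeasureTheory ProbabilityTheory Pool.Agent.K6.H91.RM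

/-- The multiplicative function with the value `y p j` at `p ^ j`. -/
noncomputable def mult (y : ℕ → ℕ → ℂ) (n : ℕ) : ℂ :=
  ∏ p ∈ n.primeFactors, y p (n.factorization p)

/-- `f(p^j) = Y p ω j` is a random multiplicative function. -/
structure IsRandom {Ω : Type} [MeasurableSpace Ω] (μ : Measure Ω) (Y : ℕ → Ω → ℕ → ℂ) : Prop where
  measurable : ∀ p, Measurable (Y p)
  independent : iIndepFun Y μ
  bound : ∀ p ω j, ‖Y p ω j‖ ≤ 1
  mean : ∀ p, p.Prime → ∫ ω, Y p ω 1 ∂μ = 0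

/-- The points of the cube `[0,1]^d`. -/
def Cube (d : ℕ) : Set (Fin d → ℝ) := {x | ∀ i, x i ∈ Set.Icc (0 : ℝ) 1}

/-- A family of coefficients `b N k x n`. -/
structure IsFamily (d A : ℕ) (b : ℕ → ℕ → (Fin d → ℝ) → ℕ → ℂ) : Prop where
  bound : ∀ N k x n, ‖b N k x n‖ ≤ 1
  lipschitz : ∀ N k n, 1 ≤ N → n ≤ 2 * N → ∀ x ∈ Cube d, ∀ x' ∈ Cube d,
    ‖b N k x n - b N k x' n‖ ≤ (2 * N : ℝ) ^ A * ‖x - x'‖

/-- `D(t) = ∑ b_n f(n) n^{it}` over the `n` with `N ≤ n ≤ 2N` and `u ≤ n ≤ v`. -/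
noncomputable def D (f b : ℕ → ℂ) (N u v : ℕ) (t : ℝ) : ℂ :=
  ∑ n ∈ (Icc N (2 * N)).filter (fun n => u ≤ n ∧ n ≤ v), b n * f n * (n : ℂ) ^ ((t : ℂ) * Complex.I)

/-- All the polynomials of the family, twisted by `f`, are `O(N^(1/2+ε))`. -/
def SquareRoot {d : ℕ} (b : ℕ → ℕ → (Fin d → ℝ) → ℕ → ℂ) (f : ℕ → ℂ) : Prop :=
  ∀ (B : ℕ) (ε : ℝ), 0 < ε → ∃ C : ℝ, ∀ N : ℕ, 1 ≤ N → ∀ k ≤ N ^ B, ∀ u v : ℕ, ∀ x ∈ Cube d,
    ∀ t : ℝ, |t| ≤ (N : ℝ) ^ B → ‖D f (b N k x) N u v t‖ ≤ C * (N : ℝ) ^ ((1 : ℝ) / 2 + ε)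

/-- The inequality of Q1 for the twisted family and all exponents. -/
def Montgomery {d : ℕ} (b : ℕ → ℕ → (Fin d → ℝ) → ℕ → ℂ) (f : ℕ → ℂ) : Prop :=
  ∀ (B : ℕ) (q A ε : ℝ), 0 < q → 1 ≤ A → 0 < ε → ∃ K : ℝ, ∀ N T : ℕ, 1 ≤ N → N ≤ T →
    (T : ℝ) ≤ (N : ℝ) ^ A → ∀ (k u v : ℕ → ℕ) (x : ℕ → Fin d → ℝ),
      (∀ t, k t ≤ N ^ B) → (∀ t, x t ∈ Cube d) →
      ∑ t ∈ Icc 1 T, ‖D f (b N (k t) (x t)) N (u t) (v t) t‖ ^ q ≤
        K * (N : ℝ) ^ ε * ((N : ℝ) ^ q + (N : ℝ) ^ (q / 2) * T)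

theorem D_eq {d : ℕ} (y : ℕ → ℕ → ℂ) (b : ℕ → ℕ → (Fin d → ℝ) → ℕ → ℂ) (N k u v : ℕ)
    (x : Fin d → ℝ) (t : ℝ) (hN : 1 ≤ N) :
    D (mult y) (b N k x) N u v t = S y (cf b N k u v x t) N := by
  unfold D S cf
  rw [sum_filter]
  apply sum_congr rfl
  intro n hn
  have hn0 : (n : ℂ) ≠ 0 := by
    have := (mem_Icc.1 hn).1
    exact_mod_cast (by omega : n ≠ 0)
  have h1 : (n : ℂ) ^ ((t : ℂ) * Complex.I) =
      Complex.exp (Complex.I * ((t * Real.log n : ℝ) : ℂ)) := by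
    rw [Complex.cpow_def_of_ne_zero hn0, ← Complex.natCast_log]
    congr 1
    push_cast
    ring
  split_ifs
  · rw [h1]
    show b N k x n * mf y n * _ = _
    ring
  · simp

theorem montgomery_of {d : ℕ} {b : ℕ → ℕ → (Fin d → ℝ) → ℕ → ℂ} {f : ℕ → ℂ}
    (h : SquareRoot b f) : Montgomery b f := by
  intro B q A ε hq hA hε
  obtain ⟨B', hB'⟩ : ∃ B' : ℕ, A ≤ B' := exists_nat_ge A
  obtain ⟨C, hC⟩ := h (max B B') (ε / q) (by positivity)
  refine ⟨(max C 0) ^ q, ?_⟩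
  intro N T hN hNT hT k u v x hk hx
  have hNr : (1 : ℝ) ≤ N := by exact_mod_cast hN
  have hN0 : (0 : ℝ) < N := by linarith
  have hone : ∀ t ∈ Icc 1 T, ‖D f (b N (k t) (x t)) N (u t) (v t) t‖ ^ q ≤
      (max C 0) ^ q * ((N : ℝ) ^ ε * (N : ℝ) ^ (q / 2)) := by
    intro t ht
    have ht' := mem_Icc.1 ht
    have h1 : |(t : ℝ)| ≤ (N : ℝ) ^ (max B B') := by
      rw [abs_of_nonneg (Nat.cast_nonneg t)]
      calc (t : ℝ) ≤ T := by exact_mod_cast ht'.2
        _ ≤ (N : ℝ) ^ A := hT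
        _ ≤ (N : ℝ) ^ (B' : ℝ) := Real.rpow_le_rpow_of_exponent_le hNr hB'
        _ = (N : ℝ) ^ B' := Real.rpow_natCast _ _
        _ ≤ (N : ℝ) ^ (max B B') := pow_le_pow_right₀ hNr (le_max_right _ _)
    have h2 : k t ≤ N ^ (max B B') := (hk t).trans (Nat.pow_le_pow_right hN (le_max_left _ _))
    have h3 := hC N hN (k t) h2 (u t) (v t) (x t) (hx t) t h1
    have h4 : ‖D f (b N (k t) (x t)) N (u t) (v t) t‖ ≤
        (max C 0) * (N : ℝ) ^ ((1 : ℝ) / 2 + ε / q) :=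
      h3.trans (mul_le_mul_of_nonneg_right (le_max_left _ _) (by positivity))
    refine (Real.rpow_le_rpow (norm_nonneg _) h4 hq.le).trans (le_of_eq ?_)
    rw [Real.mul_rpow (le_max_right _ _) (by positivity), ← Real.rpow_mul hN0.le,
      ← Real.rpow_add hN0]
    congr 2
    field_simp
    ring
  refine (sum_le_sum hone).trans ?_
  rw [sum_const, Nat.card_Icc, Nat.add_sub_cancel, nsmul_eq_mul]
  have h5 : 0 ≤ (max C 0) ^ q * (N : ℝ) ^ ε * (N : ℝ) ^ q := by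
    have := le_max_right C 0
    positivity
  calc (T : ℝ) * ((max C 0) ^ q * ((N : ℝ) ^ ε * (N : ℝ) ^ (q / 2)))
      = (max C 0) ^ q * (N : ℝ) ^ ε * ((N : ℝ) ^ (q / 2) * T) := by ring
    _ ≤ (max C 0) ^ q * (N : ℝ) ^ ε * ((N : ℝ) ^ q + (N : ℝ) ^ (q / 2) * T) := by
        rw [mul_add]
        linarith

theorem squareRoot_ae {Ω : Type} [MeasurableSpace Ω] (μ : Measure Ω) [IsProbabilityMeasure μ]
    (Y : ℕ → Ω → ℕ → ℂ) (hY : IsRandom μ Y) {d A : ℕ} {b : ℕ → ℕ → (Fin d → ℝ) → ℕ → ℂ}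
    (hb : IsFamily d A b) : ∀ᵐ ω ∂μ, SquareRoot b (mult fun p => Y p ω) := by
  have h1 : ∀ᵐ ω ∂μ, ∀ (a m : ℕ), ∃ C : ℝ, 0 < C ∧ ∀ N : ℕ, 1 ≤ N → ∀ k ≤ N ^ a, ∀ u v : ℕ,
      ∀ x : Fin d → ℝ, (∀ i, x i ∈ Set.Icc (0 : ℝ) 1) → ∀ t : ℝ, |t| ≤ (N : ℝ) ^ a →
      ‖S (fun p => Y p ω) (cf b N k u v x t) N‖ ≤
        C * (N : ℝ) ^ ((1 : ℝ) / 2 + 1 / ((m : ℝ) + 1)) := by
    rw [ae_all_iff]
    intro a
    rw [ae_all_iff]
    intro m
    refine unif hY.measurable hY.independent hY.bound hY.mean A (2 ^ A) (by positivity) b hb.bound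
      ?_ a _ (by positivity)
    intro N k n hN hn x x' hx hx' η hη hxx
    refine (hb.lipschitz N k n hN hn x hx x' hx').trans ?_
    rw [mul_pow]
    apply mul_le_mul_of_nonneg_left _ (by positivity)
    rw [pi_norm_le_iff_of_nonneg hη]
    intro i
    rw [Pi.sub_apply, Real.norm_eq_abs]
    exact hxx i
  filter_upwards [h1] with ω hω
  intro B ε hε
  obtain ⟨m, hm⟩ := exists_nat_one_div_lt hε
  obtain ⟨C, hC, hCb⟩ := hω B m
  refine ⟨C, ?_⟩
  intro N hN k hk u v x hx t ht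
  have hNr : (1 : ℝ) ≤ N := by exact_mod_cast hN
  rw [D_eq _ b N k u v x t hN]
  refine (hCb N hN k hk u v x hx t ht).trans ?_
  apply mul_le_mul_of_nonneg_left _ hC.le
  apply Real.rpow_le_rpow_of_exponent_le hNr
  linarith

/-- **Main theorem.** (1) Let `f` be a random multiplicative function. For each family `b` of
coefficients, almost surely all the twisted polynomials are `O(N^(1/2+ε))`, and they satisfy the
inequality of Q1 for all `q` and `A`. (2) For each family `b` this holds for some completely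
multiplicative function `f` with the values `±1`. -/
theorem result :
    (∀ (Ω : Type) [MeasurableSpace Ω] (μ : Measure Ω) [IsProbabilityMeasure μ]
      (Y : ℕ → Ω → ℕ → ℂ), IsRandom μ Y →
      ∀ (d A : ℕ) (b : ℕ → ℕ → (Fin d → ℝ) → ℕ → ℂ), IsFamily d A b →
        ∀ᵐ ω ∂μ, SquareRoot b (mult fun p => Y p ω) ∧ Montgomery b (mult fun p => Y p ω)) ∧
    (∀ (d A : ℕ) (b : ℕ → ℕ → (Fin d → ℝ) → ℕ → ℂ), IsFamily d A b →
      ∃ f : ℕ → ℤ, (∀ n, f n = 1 ∨ f n = -1) ∧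
        (∀ m n, m ≠ 0 → n ≠ 0 → f (m * n) = f m * f n) ∧
        SquareRoot b (fun n => (f n : ℂ)) ∧ Montgomery b (fun n => (f n : ℂ))) := by
  constructor
  · intro Ω _ μ _ Y hY d A b hb
    filter_upwards [squareRoot_ae μ Y hY hb] with ω hω
    exact ⟨hω, montgomery_of hω⟩
  · intro d A b hb
    have hY : IsRandom coins YS := ⟨YS_meas, YS_indep, YS_bound, fun p _ => YS_mean p⟩
    obtain ⟨ω, hω⟩ := (squareRoot_ae coins YS hY hb).exists
    have h1 : (mult fun p => YS p ω) = fun n => ((cm (fun p => sg (ω p)) n : ℤ) : ℂ) := by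
      funext n
      exact mf_YS ω n
    rw [h1] at hω
    exact ⟨cm (fun p => sg (ω p)), cm_eq fun p => sg_eq _, fun m n hm hn => cm_mul _ hm hn, hω,
      montgomery_of hω⟩

end Pool.Agent.K6.H91.RM.Main
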